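import Pool.Agent.J4.H42.WtC
import Pool.Agent.J4.H42.FibB

/-!
# Cyclic coverings of all degrees: character sums and numbers of points
-/

set_option autoImplicit false

namespace Pool.Agent.J4.H82.AD

open Finset Polynomial Pool.Agent.W528.HA Pool.Agent.W528.HC Pool.Agent.W528.HG
  Pool.Agent.W125.HC.PC Pool.Agent.W410.HG.PS Pool.Agent.J4.H42.Wt

/-- The function `∏ (P_i(x) + f_i(t)) ^ a_i`. -/
noncomputable def fct {L : Type} [Field L] {m : ℕ} (P f : Fin m → L[X]) (a : Fin m → ℕ)
    (x t : L) : L := ∏ i, ((P i).eval x + (f i).eval t) ^ a i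

/-- The sum over `(x, t) ∈ L²` of the value at `(∏ (P_i(x) + f_i(t)) ^ a_i) ^ (r j) * t ^ (n s)`
of the character of order `n r` of `L` belonging to `z ↦ μ`, times
`ν ^ Tr(∑ λ_l (B_l(x) + g_l(t)))`. -/
noncomputable def degSum (L : Type) [Field L] [Fintype L] (R : Type) [CommRing R] (n r c : ℕ)
    {m h : ℕ} (P f : Fin m → L[X]) (a : Fin m → ℕ) (B g : Fin h → L[X]) (z : L) (μ ν : R) (j s : ℕ)
    (lam : Fin h → Fin c) : R :=
  ∑ x : L, ∑ t : L, kv (n * r) z μ
    ((fct P f a x t ^ (r * j) * t ^ (n * s)) ^ ((Fintype.card L - 1) / (n * r)))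
    * av L R c ν (∑ l, ((lam l : ℕ) : L) * ((B l).eval x + (g l).eval t))

/-- The `j < n` which are not multiples of `n / n'`: the characters of the covering of degree `n`
which do not come from the covering of degree `n'`. -/
def newExp (n n' : ℕ) : Finset ℕ := (range n).filter fun j => ¬ n ∣ n' * j

section

variable {L : Type} [Field L] [Fintype L]

/-- **The sum of the character sums that come from the degree `p`.** -/
theorem deg_total {c : ℕ} [Fact c.Prime] [CharP L c] {n p q r : ℕ} (hn : n = p * q)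
    {z : L} (hp : 0 < p) (hq : 0 < q) (hr : 0 < r) (hN2 : 2 ≤ n * r)
    (hz : IsPrimitiveRoot z (n * r)) {E : Type} [Field E] [CharZero E] {μ ν : E}
    (hμ : IsPrimitiveRoot μ (n * r)) (hν : IsPrimitiveRoot ν c) {m h : ℕ} (P f : Fin m → L[X])
    (a : Fin m → ℕ) (B g : Fin h → L[X]) :
    ∑ i ∈ range p, ∑ s ∈ range r, ∑ lam : Fin h → Fin c,
        degSum L E n r c P f a B g z μ ν (q * i) s lam
      = (wtPoints L p r c P f a B g : E) := by
  classical
  have hN : 0 < n * r := by omega
  have hn0 : 0 < n := by rw [hn]; exact Nat.mul_pos hp hq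
  have hPR : PR := Pool.Agent.W924.HC.PR.main
  have hmu := mu_main L (n * r) z hN2 hz E μ hμ.pow_eq_one
  have h2 : ∀ v : L, ∑ i ∈ range p,
      kv (n * r) z μ ((v ^ (r * (q * i))) ^ ((Fintype.card L - 1) / (n * r))) =
      ((Set.ncard {y : L | y ^ p = v} : ℕ) : E) := by
    intro v
    have h := hPR L (n * r) p (q * r) z (by rw [hn]; ring) hz hp (Nat.mul_pos hq hr) E μ hμ v
    rw [h, range_eq_Ico, sum_eq_sum_Ico_succ_bot hp]
    congr 1
    · rw [mul_zero, mul_zero, pow_zero, one_pow, kv_one hN hz]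
    · refine sum_congr rfl fun i _ => ?_
      congr 3
      ring
  have h3 : ∀ v : L, ∑ s ∈ range r,
      kv (n * r) z μ ((v ^ (n * s)) ^ ((Fintype.card L - 1) / (n * r))) =
      ((Set.ncard {y : L | y ^ r = v} : ℕ) : E) := by
    intro v
    have := hPR L (n * r) r n z (mul_comm n r) hz hr hn0 E μ hμ v
    rw [this, range_eq_Ico, sum_eq_sum_Ico_succ_bot hr]
    congr 1
    rw [mul_zero, pow_zero, one_pow, kv_one hN hz]
  obtain ⟨A, hA⟩ : ∃ A : L → L → ℕ → E, A = fun x t i =>
      kv (n * r) z μ ((fct P f a x t ^ (r * (q * i))) ^ ((Fintype.card L - 1) / (n * r))) :=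
    ⟨_, rfl⟩
  obtain ⟨Q, hQ⟩ : ∃ Q : L → ℕ → E, Q = fun t s =>
      kv (n * r) z μ ((t ^ (n * s)) ^ ((Fintype.card L - 1) / (n * r))) := ⟨_, rfl⟩
  obtain ⟨W, hW⟩ : ∃ W : L → L → E, W = fun x t =>
      ∏ l, ((univ.filter (fun w : L => w ^ c - w = (B l).eval x + (g l).eval t)).card : E) :=
    ⟨_, rfl⟩
  have h2' : ∀ x t : L, (∑ i ∈ range p, A x t i) =
      ((Set.ncard {y : L | y ^ p = fct P f a x t} : ℕ) : E) := by
    intro x t
    rw [hA]
    exact h2 _
  have h3' : ∀ t : L, (∑ s ∈ range r, Q t s) = ((Set.ncard {y : L | y ^ r = t} : ℕ) : E) := by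
    intro t
    rw [hQ]
    exact h3 t
  have hlam : ∀ x t : L, ∑ lam : Fin h → Fin c,
      av L E c ν (∑ l, ((lam l : ℕ) : L) * ((B l).eval x + (g l).eval t)) = W x t := by
    intro x t
    rw [hW]
    exact as_sum L E c ν hν h (fun l => (B l).eval x + (g l).eval t)
  have e1 : (∑ i ∈ range p, ∑ s ∈ range r, ∑ lam : Fin h → Fin c,
      degSum L E n r c P f a B g z μ ν (q * i) s lam) =
      ∑ i ∈ range p, ∑ s ∈ range r, ∑ x : L, ∑ t : L, A x t i * (Q t s * W x t) := by
    refine sum_congr rfl fun i _ => sum_congr rfl fun s _ => ?_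
    unfold degSum
    rw [sum_comm]
    refine sum_congr rfl fun x _ => ?_
    rw [sum_comm]
    refine sum_congr rfl fun t _ => ?_
    rw [← mul_sum, hlam x t, hmu, hA, hQ, mul_assoc]
  have e2 : (∑ i ∈ range p, ∑ s ∈ range r, ∑ x : L, ∑ t : L, A x t i * (Q t s * W x t)) =
      ∑ x : L, ∑ t : L, (∑ i ∈ range p, A x t i) * ((∑ s ∈ range r, Q t s) * W x t) := by
    have e1 : ∀ i, ∑ s ∈ range r, ∑ x : L, ∑ t : L, A x t i * (Q t s * W x t)
        = ∑ x : L, ∑ t : L, A x t i * ((∑ s ∈ range r, Q t s) * W x t) := by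
      intro i
      rw [sum_comm]
      refine sum_congr rfl fun x _ => ?_
      rw [sum_comm]
      refine sum_congr rfl fun t _ => ?_
      rw [sum_mul, mul_sum]
    simp only [e1]
    rw [sum_comm]
    refine sum_congr rfl fun x _ => ?_
    rw [sum_comm]
    exact sum_congr rfl fun t _ => (sum_mul _ _ _).symm
  have e4 : (∑ x : L, ∑ t : L, (∑ i ∈ range p, A x t i) * ((∑ s ∈ range r, Q t s) * W x t)) =
      ∑ x : L, ∑ u : L, ((Set.ncard {y : L | y ^ p = fct P f a x (u ^ r)} : ℕ) : E) *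
        W x (u ^ r) := by
    refine sum_congr rfl fun x _ => ?_
    have e5 : ∀ t : L, (∑ i ∈ range p, A x t i) * ((∑ s ∈ range r, Q t s) * W x t) =
        ∑ u : L, ((Set.ncard {y : L | y ^ p = fct P f a x t} : ℕ) : E) * W x t *
          (if u ^ r = t then 1 else 0) := by
      intro t
      rw [h2', h3', ncard_eq (fun u : L => u ^ r = t), ← mul_sum]
      ring
    rw [sum_congr rfl fun t _ => e5 t, sum_comm]
    refine sum_congr rfl fun u _ => ?_
    rw [sum_eq_single_of_mem (u ^ r) (mem_univ _)]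
    · rw [if_pos rfl, mul_one]
    · intro t _ ht
      rw [if_neg (fun h => ht h.symm), mul_zero]
  refine e1.trans (e2.trans (e4.trans ?_))
  rw [wpoints_eq]
  simp only [hW]
  rfl

lemma newExp_eq {n p q : ℕ} (hn : n = p * q) (hp : 0 < p) (hq : 0 < q) :
    range n = newExp n p ∪ (range p).image (fun i => q * i) ∧
      Disjoint (newExp n p) ((range p).image (fun i => q * i)) := by
  classical
  constructor
  · ext j
    rw [mem_union, newExp, mem_filter, mem_image, mem_range]
    constructor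
    · intro hj
      by_cases h : n ∣ p * j
      · right
        rw [hn] at h
        obtain ⟨i, hi⟩ := Nat.dvd_of_mul_dvd_mul_left hp h
        refine ⟨i, ?_, hi.symm⟩
        rw [mem_range]
        rw [hi, hn, mul_comm p q] at hj
        exact Nat.lt_of_mul_lt_mul_left hj
      · exact Or.inl ⟨hj, h⟩
    · rintro (h | ⟨i, hi, rfl⟩)
      · exact h.1
      · rw [mem_range] at hi
        rw [hn, mul_comm p q]
        exact Nat.mul_lt_mul_of_pos_left hi hq
  · rw [disjoint_left]
    intro j hj hj'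
    rw [mem_image] at hj'
    obtain ⟨i, -, rfl⟩ := hj'
    rw [newExp, mem_filter] at hj
    apply hj.2
    rw [hn, ← mul_assoc]
    exact Dvd.intro _ rfl

/-- **The sum of the character sums that do not come from the degree `p`.** -/
theorem deg_new {c : ℕ} [Fact c.Prime] [CharP L c] {n p r : ℕ} (hn0 : 0 < n) (hpn : p ∣ n)
    {z : L} (hr : 0 < r) (hz : IsPrimitiveRoot z (n * r)) {E : Type} [Field E] [CharZero E]
    {μ ν : E} (hμ : IsPrimitiveRoot μ (n * r)) (hν : IsPrimitiveRoot ν c) {m h : ℕ}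
    (P f : Fin m → L[X]) (a : Fin m → ℕ) (B g : Fin h → L[X]) :
    ∑ j ∈ newExp n p, ∑ s ∈ range r, ∑ lam : Fin h → Fin c,
        degSum L E n r c P f a B g z μ ν j s lam
      = (wtPoints L n r c P f a B g : E) - (wtPoints L p r c P f a B g : E) := by
  classical
  obtain ⟨q, hq⟩ := hpn
  have hp0 : 0 < p := by
    rcases Nat.eq_zero_or_pos p with h | h
    · rw [h, zero_mul] at hq; omega
    · exact h
  have hq0 : 0 < q := by
    rcases Nat.eq_zero_or_pos q with h | h
    · rw [h, mul_zero] at hq; omega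
    · exact h
  have hN0 : 0 < n * r := Nat.mul_pos hn0 hr
  rcases Nat.lt_or_ge (n * r) 2 with hN | hN
  · have h1 : n * r = 1 := by omega
    have hn1 : n = 1 := Nat.eq_one_of_mul_eq_one_right h1
    have hp1 : p = 1 := by
      rw [hn1] at hq
      exact Nat.eq_one_of_mul_eq_one_right hq.symm
    have hemp : newExp n p = ∅ := by
      unfold newExp
      rw [filter_eq_empty_iff]
      intro j _
      rw [hn1]
      simp
    rw [hemp, sum_empty, hn1, hp1, sub_self]
  · obtain ⟨h1, h2⟩ := newExp_eq hq hp0 hq0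
    have h3 := deg_total (n := n) (p := n) (q := 1) (by ring) hn0 one_pos hr hN hz hμ hν P f a B g
    simp only [one_mul] at h3
    have h4 := deg_total hq hp0 hq0 hr hN hz hμ hν P f a B g
    rw [← h3, ← h4, h1, sum_union h2, add_sub_assoc, sum_image, sub_self, add_zero]
    intro i _ i' _ hii
    exact Nat.eq_of_mul_eq_mul_left hq0 hii

end

end Pool.Agent.J4.H82.AD
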