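import Pool.Agent.J4.H42.FibB

/-!
# Cyclic coverings of all degrees: arithmetic of the exponents
-/

set_option autoImplicit false

namespace Pool.Agent.J4.H82.AD

open Finset

/-- Sums over two periods. -/
lemma sum_period {f : ℕ → ℕ} {o : ℕ} (hf : ∀ e, f (e + o) = f e) (k : ℕ) :
    ∑ e ∈ range (o * k), f e = k * ∑ e ∈ range o, f e := by
  induction k with
  | zero => simp
  | succ k ih =>
    rw [Nat.mul_succ, sum_range_add, ih]
    have h : ∀ x, f (o * k + x) = f x := by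
      intro x
      clear ih
      induction k with
      | zero => simp
      | succ k ih =>
        have e : o * (k + 1) + x = (o * k + x) + o := by ring
        rw [e, hf, ih]
    rw [sum_congr rfl fun x _ => h x]
    ring

/-- The average over the orbit does not depend on the length. -/
lemma orbit {d c o F y : ℕ} (hc : 0 < c) (ho : d ∣ c ^ o - 1) (hF : d ∣ c ^ F - 1) :
    o * ∑ e ∈ range F, (y * c ^ e) % d = F * ∑ e ∈ range o, (y * c ^ e) % d := by
  have hper : ∀ O : ℕ, d ∣ c ^ O - 1 → ∀ e, (y * c ^ (e + O)) % d = (y * c ^ e) % d := by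
    intro O hO e
    have h1 : c ^ O ≡ 1 [MOD d] :=
      ((Nat.modEq_iff_dvd' (Nat.one_le_pow _ _ hc)).2 hO).symm
    have h2 : y * c ^ (e + O) = y * c ^ e * c ^ O := by rw [pow_add, mul_assoc]
    rw [h2]
    have h3 := h1.mul_left (y * c ^ e)
    rw [mul_one] at h3
    exact h3
  have h1 := sum_period (f := fun e => (y * c ^ e) % d) (hper F hF) o
  have h2 := sum_period (f := fun e => (y * c ^ e) % d) (hper o ho) F
  rw [mul_comm F o] at h1
  rw [← h1, ← h2]

lemma order_cond {n j g d : ℕ} (hn : 0 < n) (hg : g = Nat.gcd n j) (hd : d = n / g) :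
    0 < g ∧ 0 < d ∧ n = g * d := by
  have hg0 : 0 < g := by rw [hg]; exact Nat.gcd_pos_of_pos_left j hn
  have hgd : g ∣ n := by rw [hg]; exact Nat.gcd_dvd_left n j
  have h := Nat.mul_div_cancel' hgd
  rw [← hd] at h
  refine ⟨hg0, ?_, h.symm⟩
  rcases Nat.eq_zero_or_pos d with h0 | h0
  · rw [h0, mul_zero] at h; omega
  · exact h0

/-- `1 + c + ... + c ^ (o - 1) ≥ o`. -/
lemma geom_ge {c o : ℕ} (hc : 2 ≤ c) : o * (c - 1) ≤ c ^ o - 1 := by
  have h1 : (c - 1) * ∑ e ∈ range o, c ^ e = c ^ o - 1 := by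
    have := Nat.geomSum_eq hc o
    rw [this, Nat.mul_div_cancel']
    have h2 := Nat.sub_dvd_pow_sub_pow c 1 o
    rwa [one_pow] at h2
  rw [← h1, mul_comm o]
  refine Nat.mul_le_mul_left _ ?_
  calc o = ∑ e ∈ range o, 1 := by simp
    _ ≤ ∑ e ∈ range o, c ^ e := sum_le_sum fun e _ => Nat.one_le_pow _ _ (by omega)

/-- **The arithmetic of the exponents.** -/
theorem arithN {n r c F D o κ : ℕ} (hn : 0 < n) (hr : 0 < r) (hrn : Nat.gcd r n ∣ 2) (hc : 2 ≤ c)
    (hno : n ∣ c ^ o - 1) (hF : 0 < F) (hnF : n ∣ c ^ F - 1)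
    (hκ : κ = if r = 1 then 1 else 2) {m : ℕ} {a : Fin m → ℕ} {j : ℕ} (s : ℕ)
    (hcond : κ * D * (∑ i, a i) * (c ^ o - 1) < n / Nat.gcd n j * o * (c - 1)) :
    ∃ j' : ℕ, j'.Coprime (n * r) ∧
      D * ∑ i, ∑ e ∈ range F, (j' * (r * (j * a i % n)) * c ^ e) % (n * r)
        + ∑ e ∈ range F, (j' * (n * s) * c ^ e) % (n * r) < F * (n * r) := by
  classical
  obtain ⟨g, hg⟩ : ∃ g, g = Nat.gcd n j := ⟨_, rfl⟩
  obtain ⟨d, hd⟩ : ∃ d, d = n / g := ⟨_, rfl⟩
  obtain ⟨hg0, hd0, hgd⟩ := order_cond hn hg hd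
  rw [← hg, ← hd] at hcond
  have hdn : d ∣ n := ⟨g, by rw [hgd]; ring⟩
  obtain ⟨u, hu1, hu2⟩ := Pool.Agent.J4.H42.Fib.unit_gcd hn j
  rw [Nat.gcd_comm, ← hg] at hu2
  obtain ⟨A, hA⟩ : ∃ A, A = ∑ i, a i := ⟨_, rfl⟩
  rw [← hA] at hcond
  have hc0 : 0 < c := by omega
  have hc10 : 0 < c - 1 := by omega
  -- the residues
  have hres : ∀ j' : ℕ, j' ≡ u [MOD n] → ∀ i e,
      (j' * (r * (j * a i % n)) * c ^ e) % (n * r) = r * (g * ((a i * c ^ e) % d)) := by
    intro j' hj' i e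
    have h0 : j' * (r * (j * a i % n)) * c ^ e = r * (j' * (j * a i % n) * c ^ e) := by ring
    rw [h0, mul_comm n r, Nat.mul_mod_mul_left]
    congr 1
    have h1 : j' * (j * a i % n) * c ^ e ≡ g * (a i * c ^ e) [MOD n] := by
      have h2 : j' * (j * a i % n) ≡ u * (j * a i) [MOD n] := hj'.mul (Nat.mod_modEq _ _)
      have h3 : u * (j * a i) ≡ g * a i [MOD n] := by
        rw [← mul_assoc]
        exact hu2.mul_right _
      have h4 := (h2.trans h3).mul_right (c ^ e)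
      rw [mul_assoc g] at h4
      exact h4
    have h2 : (j' * (j * a i % n) * c ^ e) % n = (g * (a i * c ^ e)) % n := h1
    rw [h2]
    conv_lhs => rw [hgd]
    rw [Nat.mul_mod_mul_left]
  -- the orbit sums
  have horb : ∀ i, o * (c - 1) * ∑ e ∈ range F, (a i * c ^ e) % d ≤ F * (a i * (c ^ o - 1)) := by
    intro i
    have h1 := orbit (y := a i) hc0 (hdn.trans hno) (hdn.trans hnF)
    have h2 : (c - 1) * ∑ e ∈ range o, (a i * c ^ e) % d ≤ a i * (c ^ o - 1) := by
      have h3 : (c - 1) * ∑ e ∈ range o, c ^ e = c ^ o - 1 := by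
        have := Nat.geomSum_eq hc o
        rw [this, Nat.mul_div_cancel']
        have h2 := Nat.sub_dvd_pow_sub_pow c 1 o
        rwa [one_pow] at h2
      calc (c - 1) * ∑ e ∈ range o, (a i * c ^ e) % d
          ≤ (c - 1) * ∑ e ∈ range o, a i * c ^ e :=
            Nat.mul_le_mul_left _ (sum_le_sum fun e _ => Nat.mod_le _ _)
        _ = a i * ((c - 1) * ∑ e ∈ range o, c ^ e) := by rw [← mul_sum]; ring
        _ = a i * (c ^ o - 1) := by rw [h3]
    calc o * (c - 1) * ∑ e ∈ range F, (a i * c ^ e) % d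
        = (c - 1) * (o * ∑ e ∈ range F, (a i * c ^ e) % d) := by ring
      _ = F * ((c - 1) * ∑ e ∈ range o, (a i * c ^ e) % d) := by rw [h1]; ring
      _ ≤ F * (a i * (c ^ o - 1)) := Nat.mul_le_mul_left _ h2
  have hfirst : ∀ j' : ℕ, j' ≡ u [MOD n] →
      o * (c - 1) * (D * ∑ i, ∑ e ∈ range F, (j' * (r * (j * a i % n)) * c ^ e) % (n * r))
        ≤ F * r * g * (D * A * (c ^ o - 1)) := by
    intro j' hj'
    have h1 : ∀ i, ∑ e ∈ range F, (j' * (r * (j * a i % n)) * c ^ e) % (n * r)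
        = r * g * ∑ e ∈ range F, (a i * c ^ e) % d := by
      intro i
      rw [mul_sum]
      refine sum_congr rfl fun e _ => ?_
      rw [hres j' hj' i e, mul_assoc]
    simp_rw [h1]
    rw [← mul_sum]
    calc o * (c - 1) * (D * (r * g * ∑ i, ∑ e ∈ range F, (a i * c ^ e) % d))
        = D * (r * g) * ∑ i, o * (c - 1) * ∑ e ∈ range F, (a i * c ^ e) % d := by
          rw [← mul_sum]; ring
      _ ≤ D * (r * g) * ∑ i, F * (a i * (c ^ o - 1)) :=
          Nat.mul_le_mul_left _ (sum_le_sum fun i _ => horb i)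
      _ = F * r * g * (D * A * (c ^ o - 1)) := by
          rw [← mul_sum, ← sum_mul, ← hA]; ring
  -- the first sum is small
  have hkey : ∀ j' : ℕ, j' ≡ u [MOD n] →
      κ * (D * ∑ i, ∑ e ∈ range F, (j' * (r * (j * a i % n)) * c ^ e) % (n * r)) < F * (n * r) := by
    intro j' hj'
    have h1 := Nat.mul_le_mul_left κ (hfirst j' hj')
    have h2 : F * r * g * (κ * D * A * (c ^ o - 1)) < F * r * g * (d * o * (c - 1)) :=
      Nat.mul_lt_mul_of_pos_left hcond (Nat.mul_pos (Nat.mul_pos hF hr) hg0)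
    have h3 : o * (c - 1) * (κ * (D * ∑ i, ∑ e ∈ range F,
        (j' * (r * (j * a i % n)) * c ^ e) % (n * r))) < o * (c - 1) * (F * (n * r)) := by
      calc _ = κ * (o * (c - 1) * (D * ∑ i, ∑ e ∈ range F,
            (j' * (r * (j * a i % n)) * c ^ e) % (n * r))) := by ring
        _ ≤ κ * (F * r * g * (D * A * (c ^ o - 1))) := h1
        _ = F * r * g * (κ * D * A * (c ^ o - 1)) := by ring
        _ < F * r * g * (d * o * (c - 1)) := h2
        _ = o * (c - 1) * (F * ((g * d) * r)) := by ring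
        _ = o * (c - 1) * (F * (n * r)) := by rw [← hgd]
    exact Nat.lt_of_mul_lt_mul_left h3
  have hsec : ∀ (j' τ : ℕ), j' ≡ τ [MOD r] → ∑ v ∈ range F, (j' * (n * s) * c ^ v) % (n * r)
      = n * ∑ v ∈ range F, (τ * (s * c ^ v)) % r := by
    intro j' τ hj'
    rw [Finset.mul_sum]
    refine Finset.sum_congr rfl fun v _ => ?_
    have h2 : j' * (n * s) * c ^ v = n * (j' * (s * c ^ v)) := by ring
    rw [h2, Nat.mul_mod_mul_left]
    congr 1
    exact hj'.mul_right _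
  -- the chosen multiplier
  have main' : ∀ τ : ℕ, Nat.Coprime τ r → ∃ j' : ℕ, j'.Coprime (n * r) ∧ j' ≡ u [MOD n] ∧
      j' ≡ τ [MOD r] := by
    intro τ hτ
    have hcomp : τ ≡ u [MOD Nat.gcd r n] := by
      rcases (Nat.dvd_prime Nat.prime_two).1 hrn with h | h
      · rw [h]
        exact Nat.modEq_one
      · rw [h]
        have h2r : 2 ∣ r := by rw [← h]; exact Nat.gcd_dvd_left r n
        have h2n : 2 ∣ n := by rw [← h]; exact Nat.gcd_dvd_right r n
        have h1 : Nat.Coprime τ 2 := Nat.Coprime.of_dvd_right h2r hτ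
        have h2 : Nat.Coprime u 2 := Nat.Coprime.of_dvd_right h2n hu1
        rw [Nat.coprime_two_right, Nat.odd_iff] at h1 h2
        exact h1.trans h2.symm
    obtain ⟨k, hk1, hk2⟩ := Nat.chineseRemainder' hcomp
    refine ⟨k, ?_, hk2, hk1⟩
    refine Nat.Coprime.mul_right ?_ ?_
    · unfold Nat.Coprime
      rw [hk2.gcd_eq]
      exact hu1
    · unfold Nat.Coprime
      rw [hk1.gcd_eq]
      exact hτ
  by_cases hr1 : r = 1
  · obtain ⟨j', h1, h2, h3⟩ := main' 1 (Nat.coprime_one_left r)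
    refine ⟨j', h1, ?_⟩
    rw [hsec j' 1 h3]
    have h4 := hkey j' h2
    rw [if_pos hr1] at hκ
    rw [hκ, one_mul] at h4
    have h5 : ∑ v ∈ range F, (1 * (s * c ^ v)) % r = 0 := by
      rw [hr1]
      exact sum_eq_zero fun v _ => Nat.mod_one _
    rw [h5, mul_zero, add_zero]
    exact h4
  · rw [if_neg hr1] at hκ
    have hsumle : ∑ v ∈ range F, (1 * (s * c ^ v)) % r +
        ∑ v ∈ range F, ((r - 1) * (s * c ^ v)) % r ≤ F * r := by
      rw [← Finset.sum_add_distrib]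
      calc ∑ v ∈ range F, ((1 * (s * c ^ v)) % r + ((r - 1) * (s * c ^ v)) % r)
          ≤ ∑ v ∈ range F, r := Finset.sum_le_sum fun v _ => by
            rw [one_mul]; exact Pool.Agent.W160.HD.AP.key hr
        _ = F * r := by simp
    have hfin : ∀ Q T : ℕ, κ * Q < F * (n * r) → 2 * T ≤ F * r → Q + n * T < F * (n * r) := by
      intro Q T hQ hT
      rw [hκ] at hQ
      have h3 : n * (2 * T) ≤ n * (F * r) := Nat.mul_le_mul_left n hT
      have h5 : n * (F * r) = F * (n * r) := by ring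
      have h6 : n * (2 * T) = 2 * (n * T) := by ring
      omega
    by_cases h : 2 * ∑ v ∈ range F, (1 * (s * c ^ v)) % r ≤ F * r
    · obtain ⟨j', h1, h2, h3⟩ := main' 1 (Nat.coprime_one_left r)
      refine ⟨j', h1, ?_⟩
      rw [hsec j' 1 h3]
      exact hfin _ _ (hkey j' h2) h
    · have hcop : Nat.Coprime (r - 1) r := by
        have : Nat.Coprime (r - 1) (r - 1 + 1) := by simp
        rwa [Nat.sub_add_cancel hr] at this
      obtain ⟨j', h1, h2, h3⟩ := main' (r - 1) hcop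
      refine ⟨j', h1, ?_⟩
      rw [hsec j' (r - 1) h3]
      exact hfin _ _ (hkey j' h2) (by omega)

/-- A character of large order is not killed by the multiplicities. -/
lemma not_dvd {n c D o κ : ℕ} (hn : 0 < n) (hc : 2 ≤ c) (hD : 1 ≤ D) (hκ : 1 ≤ κ)
    {m : ℕ} {a : Fin m → ℕ} {j : ℕ}
    (hcond : κ * D * (∑ i, a i) * (c ^ o - 1) < n / Nat.gcd n j * o * (c - 1)) (i : Fin m)
    (hi : 0 < a i) : ¬ n ∣ j * a i := by
  obtain ⟨g, hg⟩ : ∃ g, g = Nat.gcd n j := ⟨_, rfl⟩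
  obtain ⟨d, hd⟩ : ∃ d, d = n / g := ⟨_, rfl⟩
  obtain ⟨hg0, hd0, hgd⟩ := order_cond hn hg hd
  rw [← hg, ← hd] at hcond
  intro h
  obtain ⟨j1, hj1⟩ : g ∣ j := by rw [hg]; exact Nat.gcd_dvd_right n j
  have hcop : d.Coprime j1 := by
    have h1 : Nat.gcd (g * d) (g * j1) = g := by rw [← hj1, ← hgd, ← hg]
    rw [Nat.gcd_mul_left] at h1
    exact Nat.eq_of_mul_eq_mul_left hg0 (by rw [mul_one]; exact h1)
  have h1 : d ∣ a i := by
    rw [hj1, hgd, mul_assoc] at h
    exact hcop.dvd_of_dvd_mul_left (Nat.dvd_of_mul_dvd_mul_left hg0 h)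
  have h2 : d ≤ a i := Nat.le_of_dvd hi h1
  have h3 : a i ≤ ∑ i, a i := single_le_sum (f := a) (fun _ _ => Nat.zero_le _) (mem_univ i)
  have h4 : ∑ i, a i ≤ κ * D * ∑ i, a i := Nat.le_mul_of_pos_left _ (Nat.mul_pos hκ hD)
  have h5 := geom_ge (o := o) hc
  have h6 : d * (o * (c - 1)) ≤ (κ * D * ∑ i, a i) * (c ^ o - 1) :=
    Nat.mul_le_mul (h2.trans (h3.trans h4)) h5
  have h7 : d * (o * (c - 1)) = d * o * (c - 1) := by ring
  omega

end Pool.Agent.J4.H82.AD
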