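import Pool.Agent.J4.H82.AD.A
import Pool.Agent.J4.H82.AD.B
import Pool.Agent.J4.H42.WtD

/-!
# Cyclic coverings of all degrees: the L-functions
-/

set_option autoImplicit false

namespace Pool.Agent.J4.H82.AD

open Finset Polynomial Pool.Agent.W528.HA Pool.Agent.W528.HB Pool.Agent.W528.HC
  Pool.Agent.W528.HD Pool.Agent.W528.HG Pool.Agent.J4.H42.Wt Pool.Agent.W125.HC.PC

/-- `∏_{x ∈ A} (1 - x T)` is the L-function of the character `(j, s, lam)`: for every finite
extension `L` of `κ`, of degree `d`, the sum of the `x ^ d` is `degSum`. -/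
def IsDegL (κ : Type) [Field κ] [Fintype κ] {E : Type} [Field E] (n r c : ℕ) {m h : ℕ}
    (P f : Fin m → κ[X]) (a : Fin m → ℕ) (B g : Fin h → κ[X]) (z : κ) (μ ν : E) (j s : ℕ)
    (lam : Fin h → Fin c) (A : Multiset E) : Prop :=
  ∀ (L : Type) [Field L] [Fintype L] [Algebra κ L],
    (A.map fun x => x ^ Module.finrank κ L).sum
      = degSum L E n r c (fun i => (P i).map (algebraMap κ L)) (fun i => (f i).map (algebraMap κ L))
        a (fun l => (B l).map (algebraMap κ L)) (fun l => (g l).map (algebraMap κ L))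
        (algebraMap κ L z) μ ν j s lam

/-- `∏ (1 - x T)` over all `x ∈ A j s lam`, `j ∈ newExp n n'`, `0 ≤ s < r`, all `lam`. -/
noncomputable def newPoly {E : Type} [Field E] (n n' r c h : ℕ)
    (A : ℕ → ℕ → (Fin h → Fin c) → Multiset E) : E[X] :=
  ∏ j ∈ newExp n n', ∏ s ∈ range r, ∏ lam : Fin h → Fin c,
    ((A j s lam).map fun x => 1 - C x * X).prod

lemma degSum_eq {L : Type} [Field L] [Fintype L] {R : Type} [CommRing R] {n r c : ℕ} {m h : ℕ}
    (P f : Fin m → L[X]) {a : Fin m → ℕ} (B g : Fin h → L[X]) {z : L} (μ ν : R) {j s : ℕ}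
    (lam : Fin h → Fin c) (hn : 0 < n) (hr : 0 < r) (hz : IsPrimitiveRoot z (n * r))
    (hnd : ∀ i, 0 < a i → ¬ n ∣ j * a i) :
    degSum L R n r c P f a B g z μ ν j s lam
      = gSumW L R (n * r) c P f (fun i => r * (j * a i % n)) (n * s)
        (∑ l, C ((lam l : ℕ) : L) * B l) (∑ l, C ((lam l : ℕ) : L) * g l) z μ ν := by
  unfold degSum gSumW fct
  refine sum_congr rfl fun x _ => sum_congr rfl fun t _ => ?_
  congr 1
  · congr 1
    rw [mul_pow, mul_pow]
    congr 1
    rw [← prod_pow, ← prod_pow, ← prod_pow]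
    refine prod_congr rfl fun i _ => ?_
    rcases Nat.eq_zero_or_pos (a i) with h0 | h0
    · simp only [h0, mul_zero, Nat.zero_mod, pow_zero, one_pow]
    · rw [pow_mod hn hr hz (hnd i h0), ← pow_mul ((P i).eval x + (f i).eval t) (a i)]
      congr 2
      ring
  · simp only [eval_finsetSum, eval_mul, eval_C, mul_add, sum_add_distrib]

/-- **The characters of large order.** -/
theorem large {n r c D o κ : ℕ} (hn : 0 < n) (hr : 0 < r) (hrn : Nat.gcd r n ∣ 2)
    [Fact c.Prime] (hno : n ∣ c ^ o - 1) (hκ : κ = if r = 1 then 1 else 2)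
    (k : Type) [Field k] [Fintype k] [CharP k c]
    {z : k} (hz : IsPrimitiveRoot z (n * r)) {E : Type} [Field E] [CharZero E] [IsAlgClosed E]
    {μ ν : E} (hμ : IsPrimitiveRoot μ (n * r)) (hν : IsPrimitiveRoot ν c) {m h : ℕ} (hD : 1 ≤ D)
    (P : Fin m → k[X]) (hP : ∀ i, IsAdditive c (P i))
    (f : Fin m → k[X]) (hf : ∀ i, HasWeight c D (f i)) (a : Fin m → ℕ)
    (B : Fin h → k[X]) (hB : ∀ l, IsAdditive c (B l))
    (g : Fin h → k[X]) (hg : ∀ l, HasWeight c D (g l))
    {j s : ℕ} (lam : Fin h → Fin c) (S : Multiset E) (hs : s < r)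
    (hcond : κ * D * (∑ i, a i) * (c ^ o - 1) < n / Nat.gcd n j * o * (c - 1))
    (hN : 2 ≤ n * r)
    (hS : IsDegL k n r c P f a B g z μ ν j s lam S) :
    ∀ (ζ : E) (M : ℕ), 0 < M → ζ ^ M = 1 →
      ((S.map fun x => 1 - C x * X).prod).eval (ζ * (Fintype.card k : E)⁻¹) ≠ 0 := by
  classical
  have hc : c.Prime := Fact.out
  obtain ⟨F, hF0, hF⟩ := FiniteField.card k c
  have hF0' : 0 < (F : ℕ) := F.2
  have hκ1 : 1 ≤ κ := by rw [hκ]; split_ifs <;> omega
  have hnF : n ∣ c ^ (F : ℕ) - 1 := by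
    rw [← hF]
    exact (Dvd.intro _ rfl : n ∣ n * r).trans (Pool.Agent.W528.HB.dvd_card_of_root hz (by omega))
  intro ζ M hM hζ h0
  have hq : (Fintype.card k : E) ≠ 0 := by exact_mod_cast Fintype.card_ne_zero
  rw [eval_multiset_prod, Multiset.prod_eq_zero_iff, Multiset.map_map, Multiset.mem_map] at h0
  obtain ⟨x, hx, h0⟩ := h0
  simp only [Function.comp, eval_sub, eval_one, eval_mul, eval_C, eval_X] at h0
  have h1 : x * ζ = (Fintype.card k : E) := by
    have h2 : x * (ζ * (Fintype.card k : E)⁻¹) = 1 := (sub_eq_zero.mp h0).symm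
    field_simp at h2
    linear_combination h2
  obtain ⟨j', hj', hsum⟩ := arithN (j := j) hn hr hrn hc.two_le hno hF0' hnF hκ s hcond
  have hnd := not_dvd (j := j) hn hc.two_le hD hκ1 hcond
  refine g_nonvanishW hN k hF hz hμ hν hD P hP f hf
    (fun i => r * (j * a i % n)) ?_ (n * s) ?_ hj' (∑ l, C ((lam l : ℕ) : k) * B l) ?_
    (∑ l, C ((lam l : ℕ) : k) * g l) ?_ hsum S ?_ x hx M hM ?_
  · intro i
    rw [mul_comm n r]
    exact Nat.mul_lt_mul_of_pos_left (Nat.mod_lt _ hn) hr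
  · exact Nat.mul_lt_mul_of_pos_left hs hn
  · exact IsAdditive.sum _ _ fun l _ => (hB l).C_mul _
  · exact HasWeight.sum _ _ fun l _ => (hg l).C_mul _
  · intro L _ _ _
    have : CharP L c := charP_of_injective_algebraMap (algebraMap k L).injective c
    have hzL : IsPrimitiveRoot (algebraMap k L z) (n * r) :=
      hz.map_of_injective (algebraMap k L).injective
    rw [hS L, degSum_eq _ _ _ _ _ _ _ hn hr hzL hnd]
    simp only [Polynomial.map_sum, Polynomial.map_mul, Polynomial.map_natCast, C_eq_natCast]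
  · rw [← h1, mul_pow, hζ, mul_one]

lemma order_not_dvd {n n' j : ℕ} (hn : 0 < n) (hj : ¬ n ∣ n' * j) :
    ¬ n / Nat.gcd n j ∣ n' := by
  intro h
  apply hj
  have hg : 0 < Nat.gcd n j := Nat.gcd_pos_of_pos_left j hn
  obtain ⟨q, hq⟩ := h
  obtain ⟨i, hi⟩ := Nat.gcd_dvd_right n j
  have h1 := Nat.div_mul_cancel (Nat.gcd_dvd_left n j)
  refine ⟨q * i, ?_⟩
  calc n' * j = n / Nat.gcd n j * q * (Nat.gcd n j * i) := by rw [← hq, ← hi]
    _ = (n / Nat.gcd n j * Nat.gcd n j) * (q * i) := by ring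
    _ = n * (q * i) := by rw [h1]

theorem ad_main {n r c D o κ : ℕ} (hn : 0 < n) (hr : 0 < r) (hrn : Nat.gcd r n ∣ 2)
    [Fact c.Prime] (hno : n ∣ c ^ o - 1) (hκ : κ = if r = 1 then 1 else 2)
    (k : Type) [Field k] [Fintype k] [CharP k c]
    {z : k} (hz : IsPrimitiveRoot z (n * r)) {E : Type} [Field E] [CharZero E] [IsAlgClosed E]
    {μ ν : E} (hμ : IsPrimitiveRoot μ (n * r)) (hν : IsPrimitiveRoot ν c) {m h : ℕ} (hD : 1 ≤ D)
    (P : Fin m → k[X]) (hP : ∀ i, IsAdditive c (P i))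
    (f : Fin m → k[X]) (hf : ∀ i, HasWeight c D (f i)) (a : Fin m → ℕ)
    (B : Fin h → k[X]) (hB : ∀ l, IsAdditive c (B l))
    (g : Fin h → k[X]) (hg : ∀ l, HasWeight c D (g l))
    {n' : ℕ} (hn' : n' ∣ n) (A : ℕ → ℕ → (Fin h → Fin c) → Multiset E)
    (hA : ∀ j ∈ newExp n n', ∀ s < r, ∀ lam,
      IsDegL k n r c P f a B g z μ ν j s lam (A j s lam)) :
    (∀ (L : Type) [Field L] [Fintype L] [Algebra k L],
      ∑ j ∈ newExp n n', ∑ s ∈ range r, ∑ lam : Fin h → Fin c,
          ((A j s lam).map fun x => x ^ Module.finrank k L).sum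
        = (wtPoints L n r c (fun i => (P i).map (algebraMap k L))
              (fun i => (f i).map (algebraMap k L)) a (fun l => (B l).map (algebraMap k L))
              (fun l => (g l).map (algebraMap k L)) : E)
          - (wtPoints L n' r c (fun i => (P i).map (algebraMap k L))
              (fun i => (f i).map (algebraMap k L)) a (fun l => (B l).map (algebraMap k L))
              (fun l => (g l).map (algebraMap k L)) : E)) ∧
    ((∀ d, d ∣ n → d * o * (c - 1) ≤ κ * D * (∑ i, a i) * (c ^ o - 1) → d ∣ n') →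
      ∀ (ζ : E) (M : ℕ), 0 < M → ζ ^ M = 1 →
        (newPoly n n' r c h A).eval (ζ * (Fintype.card k : E)⁻¹) ≠ 0) := by
  classical
  refine ⟨?_, ?_⟩
  · intro L _ _ _
    have : CharP L c := charP_of_injective_algebraMap (algebraMap k L).injective c
    have hzL : IsPrimitiveRoot (algebraMap k L z) (n * r) :=
      hz.map_of_injective (algebraMap k L).injective
    rw [← deg_new hn hn' hr hzL hμ hν]
    exact sum_congr rfl fun j hj => sum_congr rfl fun s hs => sum_congr rfl fun lam _ =>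
      hA j hj s (mem_range.mp hs) lam L
  · intro hold ζ M hM hζ h0
    unfold newPoly at h0
    rw [eval_prod, prod_eq_zero_iff] at h0
    obtain ⟨j, hj, h0⟩ := h0
    rw [eval_prod, prod_eq_zero_iff] at h0
    obtain ⟨s, hs, h0⟩ := h0
    rw [eval_prod, prod_eq_zero_iff] at h0
    obtain ⟨lam, -, h0⟩ := h0
    have hj2 := hj
    unfold newExp at hj2
    rw [mem_filter, mem_range] at hj2
    have h1 := order_not_dvd hn hj2.2
    have h2 : κ * D * (∑ i, a i) * (c ^ o - 1) < n / Nat.gcd n j * o * (c - 1) := by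
      by_contra h3
      exact h1 (hold _ (Nat.div_dvd_of_dvd (Nat.gcd_dvd_left n j)) (by omega))
    have hN : 2 ≤ n * r := by
      have h4 : n ≠ 1 := by
        intro h5
        apply hj2.2
        rw [h5]
        exact one_dvd _
      have h6 : 0 < n * r := Nat.mul_pos hn hr
      rcases Nat.lt_or_ge (n * r) 2 with h7 | h7
      · exact absurd (Nat.eq_one_of_mul_eq_one_right (by omega : n * r = 1)) h4
      · exact h7
    exact large hn hr hrn hno hκ k hz hμ hν hD P hP f hf a B hB g hg lam (A j s lam)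
      (mem_range.mp hs) h2 hN (hA j hj s (mem_range.mp hs) lam) ζ M hM hζ h0

end Pool.Agent.J4.H82.AD
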